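import Mathlib
import Pool.Agent.Q209.QCTree2

/-!
# MP_6bb66b_gt, Q1 (consistently not)

If there is a free Suslin tree (Jensen: `◇` implies this), then there is an uncountable open Whyburn
Hausdorff semi-regular space `X` (even first countable and regular) such that the space of
quasicontinuous real-valued functions on `X` with the topology of pointwise convergence is
Fréchet-Urysohn.
-/

set_option autoImplicit false

namespace Pool.Agent.Results.MP_6bb66b_gt.FreeSuslinTree

open Q209.QC Q209.Om Set Filter Topology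

/-- `X` is semi-regular: the regular open sets (the sets `U` with `U = Int (cl U)`) form a base. -/
def SemiRegular (X : Type) [TopologicalSpace X] : Prop :=
  TopologicalSpace.IsTopologicalBasis {U : Set X | interior (closure U) = U}

theorem semiRegular {T : Type} [PartialOrder T] {lev : T → W1} (hT : IsFreeSuslin T lev) :
    SemiRegular (Nd T) := by
  refine TopologicalSpace.isTopologicalBasis_of_isOpen_of_nhds ?_ ?_
  · intro U hU
    rw [← (show interior (closure U) = U from hU)]
    exact isOpen_interior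
  · intro x U hx hU
    obtain ⟨V, hV, hxV, hVU⟩ := exists_clopen hT hU hx
    refine ⟨V, ?_, hxV, hVU⟩
    change interior (closure V) = V
    rw [hV.1.closure_eq, hV.2.interior_eq]

theorem regular {T : Type} [PartialOrder T] {lev : T → W1} (hT : IsFreeSuslin T lev) :
    RegularSpace (Nd T) := by
  refine RegularSpace.of_exists_mem_nhds_isClosed_subset fun x s hs => ?_
  obtain ⟨U, hUs, hU, hxU⟩ := mem_nhds_iff.1 hs
  obtain ⟨V, hV, hxV, hVU⟩ := exists_clopen hT hU hxU
  exact ⟨V, hV.2.mem_nhds hxV, hV.1, hVU.trans hUs⟩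

theorem firstCountable {T : Type} [PartialOrder T] {lev : T → W1} (hT : IsFreeSuslin T lev) :
    FirstCountableTopology (Nd T) := by
  refine ⟨fun x => ?_⟩
  have hch : {c | x.v ⋖ c}.Countable := by
    obtain ⟨η, hη⟩ := exists_gt (lev x.v)
    have h1 : {c | x.v ⋖ c} ⊆ ⋃ γ ∈ Iic η, {t | lev t = γ} := by
      intro c hc
      refine mem_iUnion₂.2 ⟨lev c, ?_, rfl⟩
      change lev c ≤ η
      by_contra hcon
      obtain ⟨s, hs, hsl⟩ := hT.down c η (not_le.1 hcon)
      have h3 : x.v < s := by
        refine lt_of_le_of_ne (le_of_lev hT hc.le hs.le (by rw [hsl]; exact hη.le)) ?_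
        intro h
        rw [← h] at hsl
        exact absurd hη (by rw [← hsl]; exact lt_irrefl _)
      exact hc.2 h3 hs
    have h2 : (Iic η).Countable := countable_Iic η
    exact (h2.biUnion fun γ _ => hT.countable_level γ).mono h1
  have hb : (𝓝 x).HasBasis (fun E : Set T => E.Finite ∧ E ⊆ {c | x.v ⋖ c})
      (fun E => cone x.v \ ⋃ c ∈ E, cone c) := by
    refine ⟨fun s => ?_⟩
    constructor
    · intro hs
      obtain ⟨U, hUs, hU, hxU⟩ := mem_nhds_iff.1 hs
      refine ⟨{c | x.v ⋖ c ∧ ¬ cone c ⊆ U}, ⟨nd_open_iff.1 hU x hxU, fun c hc => hc.1⟩, ?_⟩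
      rintro y ⟨hy, hy2⟩
      apply hUs
      rcases (show x.v ≤ y.v from hy).eq_or_lt with h | h
      · have : x = y := Nd.ext h
        rw [← this]; exact hxU
      · obtain ⟨c, hc, hcy⟩ := child_below hT h
        by_cases hcU : cone c ⊆ U
        · exact hcU hcy
        · exact absurd (mem_iUnion₂.2 ⟨c, ⟨hc, hcU⟩, hcy⟩) hy2
    · rintro ⟨E, ⟨hE, hEc⟩, hsub⟩
      refine mem_nhds_iff.2 ⟨_, hsub, (cone_open _).sdiff
        (hE.isClosed_biUnion fun c _ => cone_closed hT c), le_refl x.v, fun h => ?_⟩
      obtain ⟨c, hc, hxc⟩ := mem_iUnion₂.1 h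
      exact absurd (lt_of_lt_of_le (hEc hc).1 hxc) (lt_irrefl _)
  exact HasCountableBasis.isCountablyGenerated
    ⟨hb, Set.countable_ofPred_finite_subset hch⟩

/-- If there is a free Suslin tree, then there is an uncountable open Whyburn Hausdorff semi-regular
space, even first countable and `T₃`, whose space `Q_p(X, ℝ)` is Fréchet-Urysohn. -/
theorem result (h : ∃ (T : Type) (_ : PartialOrder T) (lev : T → W1), IsFreeSuslin T lev) :
    ∃ (X : Type) (_ : TopologicalSpace X), T2Space X ∧ SemiRegular X ∧ OpenWhyburn X ∧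
      ¬ Countable X ∧ T3Space X ∧ FirstCountableTopology X ∧ FrechetUrysohnSpace (Qp X) := by
  obtain ⟨T, _, lev, hT⟩ := h
  have h2 : T2Space (Nd T) := nd_t2 hT
  have hreg : RegularSpace (Nd T) := regular hT
  refine ⟨Nd T, inferInstance, h2, semiRegular hT, nd_whyburn hT, nd_uncountable hT,
    inferInstance, firstCountable hT, ⟨fun A f hf => ?_⟩⟩
  obtain ⟨s, hs, hlim⟩ := nd_fu hT f A hf
  exact ⟨s, hs, hlim⟩

end Pool.Agent.Results.MP_6bb66b_gt.FreeSuslinTree
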